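import Pool.Agent.H.MP_161132_co.A

set_option autoImplicit false

namespace Pool.Agent.Results.MP_161132_co.Seven

def HasMono {V : Type} (G : SimpleGraph V) (k : ℕ) : Prop :=
  ∃ l : List V, k ≤ l.length ∧ l.Nodup ∧ l.IsChain G.Adj ∧
    (l.IsChain (fun a b => (G.neighborSet a).ncard ≤ (G.neighborSet b).ncard) ∨
      l.IsChain (fun a b => (G.neighborSet a).ncard ≥ (G.neighborSet b).ncard))

def Sat {V : Type} (k : ℕ) (G : SimpleGraph V) : Prop :=
  ¬ HasMono G k ∧ ∀ u v, u ≠ v → ¬ G.Adj u v → HasMono (G ⊔ SimpleGraph.edge u v) k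

open Pool.Agent.H.MP_161132_co SimpleGraph in
theorem result (k : ℕ) (hk : 2 ≤ k) : ∃ N : ℕ, ∀ n ≥ N,
    ∃ (V : Type) (_ : Fintype V) (G : SimpleGraph V),
      Fintype.card V = n ∧ Sat k G ∧ G.edgeSet.ncard ≤ 7 * n := by
  classical
  obtain ⟨m, rfl⟩ : ∃ m, k = m + 2 := ⟨k - 2, by omega⟩
  rcases Nat.eq_zero_or_pos m with rfl | hm
  · refine ⟨0, fun n _ => ⟨Fin n, inferInstance, ⊥, by simp, ⟨?_, fun u v h hn => ?_⟩, by simp⟩⟩
    · rintro ⟨_ | ⟨a, _ | ⟨b, l⟩⟩, h1, -, h2, -⟩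
      · simp at h1
      · simp at h1
      · simp at h2
    · have D := dg_sup ⊥ h hn
      refine ⟨[u, v], le_rfl, by simpa using h, by simpa [edge_adj] using h, Or.inl ?_⟩
      simp only [List.isChain_cons_cons, List.IsChain.singleton, and_true]
      refine le_of_eq ((D u).trans (Eq.trans ?_ (D v).symm))
      simp [dg]
  have : NeZero m := ⟨by omega⟩
  obtain ⟨p1, p2⟩ := par m
  obtain ⟨e, he⟩ : ∃ e, (S m).card + 2 + e = 3 * (A m).card := ⟨_, Nat.add_sub_cancel' p1⟩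
  refine ⟨e + 1 + 5 * m * (5 * m), fun n hn => ?_⟩
  obtain ⟨B, hB⟩ : ∃ B, B = (n - e - 1) / (5 * m) := ⟨_, rfl⟩
  obtain ⟨j, hj⟩ : ∃ j, j = (n - e - 1) % (5 * m) + 1 := ⟨_, rfl⟩
  have e1 : 5 * m * B + j + e = n := by
    have := Nat.div_add_mod (n - e - 1) (5 * m)
    rw [← hB] at this
    omega
  have j1 : j ≤ B := by
    have := Nat.mod_lt (n - e - 1) (show 0 < 5 * m by omega)
    have : 5 * m ≤ B := hB ▸ (Nat.le_div_iff_mul_le (by omega)).2 (by omega)
    omega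
  have h1 : ∀ x, dg (gr m (R m B j e)) (.inl x) = 4 * (A m).card - 1 := fun x => by
    rw [dg_inl, R1 _ _ _ _ (by omega)]; omega
  have h3 : ∀ t, dg (gr m (R m B j e)) (.inr (.inl t)) = 4 * (A m).card - 1 + 1 := fun t => by
    rw [dg_inr, R2]; omega
  have h2 : ∀ t, 4 * (A m).card - 1 + 1 ≤ dg (gr m (R m B j e)) (.inr t) := by
    rintro (t | t)
    · exact (h3 t).ge
    · have := R3 m B j e j1 (by omega) t
      rw [dg_inr]; omega
  refine ⟨_, inferInstance, gr m (R m B j e), ?_, ⟨?_, fun u v h hn => ?_⟩, ?_⟩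
  · simp only [Fintype.card_sum, Fintype.card_prod, Fintype.card_fin, ZMod.card]
    rw [← e1]; ring
  · rintro ⟨l, l1, l2, l3, l4 | l4⟩
    · have := upper m _ _ h1 h2 l l2 l3 l4
      omega
    · have := upper m _ _ h1 h2 l.reverse (List.nodup_reverse.2 l2)
        (List.isChain_reverse.2 (l3.imp fun _ _ h => h.symm)) (List.isChain_reverse.2 l4)
      rw [List.length_reverse] at this
      omega
  · obtain ⟨l, l1, l2, l3, l4⟩ := lower m _ _ h1 h2 (fun x => .inl (x.1.1, x.2))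
      (fun x => by simp [R, A]) (fun c i => by simp [R, A]) (fun x => h3 _)
      (fun c i j h => by simpa using h) u v h hn
    exact ⟨l, l1.ge, l2, l3, Or.inl l4⟩
  · refine (edges m _ _ h1).trans ?_
    simp only [Fintype.card_prod, Fintype.card_fin, ZMod.card]
    rw [mul_comm 7]
    exact Nat.mul_le_mul (by rw [← e1]; nlinarith) (by omega)

end Pool.Agent.Results.MP_161132_co.Seven
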